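import Mathlib
import Pool.Agent.H23.L.Nb.GC
import Pool.Agent.H23.L.Ev.T15
import Pool.Agent.H23.L.KV.Iter

set_option autoImplicit false
set_option linter.unusedSectionVars false

/-!
The criterion for vertex sets made of field blocks of one characteristic and of single vertices.
-/

namespace Pool.Agent.W5h82.Ev

open Finset Pool.Agent.H98R2.Ev

section VS

variable {I : Type} (F : I → Type) [∀ i, Field (F i)] (R : Type)

/-- the vertex set: one block `F i` for each `i : I`, and single vertices `r : R` -/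
abbrev VS : Type := (Σ i : I, F i) ⊕ R

variable {F R}

/-- the block of a vertex -/
def bl : VS F R → I ⊕ R := Sum.map Sigma.fst id

/-- independent translations of the field blocks -/
def tr (t : ∀ i, F i) : Equiv.Perm (VS F R) :=
  Equiv.sumCongr (Equiv.sigmaCongrRight fun i => Equiv.addRight (t i)) (Equiv.refl R)

/-- `x ↦ g_i x` on the block `F i` -/
def mu (g : ∀ i, (F i)ˣ) : Equiv.Perm (VS F R) :=
  Equiv.sumCongr (Equiv.sigmaCongrRight fun i => Units.mulLeft (g i)) (Equiv.refl R)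

theorem tr_inl (t : ∀ i, F i) (i : I) (u : F i) :
    (tr t : Equiv.Perm (VS F R)) (Sum.inl ⟨i, u⟩) = Sum.inl ⟨i, u + t i⟩ := rfl

theorem tr_inr (t : ∀ i, F i) (r : R) : (tr t : Equiv.Perm (VS F R)) (Sum.inr r) = Sum.inr r := rfl

theorem mu_inl (g : ∀ i, (F i)ˣ) (i : I) (u : F i) :
    (mu g : Equiv.Perm (VS F R)) (Sum.inl ⟨i, u⟩) = Sum.inl ⟨i, (g i : F i) * u⟩ := rfl

theorem mu_inr (g : ∀ i, (F i)ˣ) (r : R) :
    (mu g : Equiv.Perm (VS F R)) (Sum.inr r) = Sum.inr r := rfl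

theorem bl_tr (t : ∀ i, F i) (x : VS F R) : bl (tr t x) = bl x := by
  rcases x with ⟨i, x⟩ | r <;> rfl

theorem bl_mu (g : ∀ i, (F i)ˣ) (x : VS F R) : bl (mu g x) = bl x := by
  rcases x with ⟨i, x⟩ | r <;> rfl

theorem tr_comm (s t : ∀ i, F i) :
    (tr s : Equiv.Perm (VS F R)) * tr t = tr t * tr s := by
  apply Equiv.ext
  rintro (⟨i, u⟩ | r)
  · rw [Equiv.Perm.mul_apply, Equiv.Perm.mul_apply, tr_inl, tr_inl, tr_inl, tr_inl,
      add_right_comm]
  · rw [Equiv.Perm.mul_apply, Equiv.Perm.mul_apply, tr_inr, tr_inr, tr_inr]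

theorem tr_pow_inl (t : ∀ i, F i) (m : ℕ) (i : I) (u : F i) :
    ((tr t : Equiv.Perm (VS F R)) ^ m) (Sum.inl ⟨i, u⟩) = Sum.inl ⟨i, u + m * t i⟩ := by
  induction m with
  | zero => simp
  | succ m ih =>
    rw [pow_succ', Equiv.Perm.mul_apply, ih, tr_inl]
    push_cast
    rw [add_mul, one_mul, add_assoc]

theorem tr_pow_inr (t : ∀ i, F i) (m : ℕ) (r : R) :
    ((tr t : Equiv.Perm (VS F R)) ^ m) (Sum.inr r) = Sum.inr r := by
  induction m with
  | zero => simp
  | succ m ih => rw [pow_succ', Equiv.Perm.mul_apply, ih, tr_inr]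

theorem tr_pow (p : ℕ) [∀ i, CharP (F i) p] (t : ∀ i, F i) :
    (tr t : Equiv.Perm (VS F R)) ^ p = 1 := by
  apply Equiv.ext
  rintro (⟨i, u⟩ | r)
  · rw [tr_pow_inl, CharP.cast_eq_zero, zero_mul, add_zero, Equiv.Perm.one_apply]
  · rw [tr_pow_inr, Equiv.Perm.one_apply]

theorem mu_tr (g : ∀ i, (F i)ˣ) (t : ∀ i, F i) :
    (mu g : Equiv.Perm (VS F R))⁻¹ * tr t * mu g =
      tr (fun i => (((g i)⁻¹ : (F i)ˣ) : F i) * t i) := by
  rw [mul_assoc, inv_mul_eq_iff_eq_mul]
  apply Equiv.ext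
  rintro (⟨i, u⟩ | r)
  · rw [Equiv.Perm.mul_apply, Equiv.Perm.mul_apply, mu_inl, tr_inl, tr_inl,
      mu_inl, mul_add, Units.mul_inv_cancel_left]
  · rw [Equiv.Perm.mul_apply, Equiv.Perm.mul_apply, mu_inr, tr_inr, tr_inr,
      mu_inr]

/-- a representative of a block -/
def rep : I ⊕ R → VS F R
  | Sum.inl i => Sum.inl ⟨i, 0⟩
  | Sum.inr r => Sum.inr r

theorem bl_rep (x : I ⊕ R) : bl (rep x : VS F R) = x := by
  rcases x with i | r <;> rfl

variable [DecidableEq I] [DecidableEq R]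

/-- the invariant graph of a set of pairs of blocks -/
def gS (A : Finset (EV (I ⊕ R))) : SimpleGraph (VS F R) := (toG A).comap bl

theorem gS_adj (A : Finset (EV (I ⊕ R))) (x y : VS F R) :
    (gS A).Adj x y ↔ (toG A).Adj (bl x) (bl y) := Iff.rfl

theorem gS_tr (A : Finset (EV (I ⊕ R))) (t : ∀ i, F i) :
    Pool.Agent.H98R2.Nb.Inv (tr t) (gS (F := F) A) := by
  intro x y h
  rw [gS_adj] at h ⊢
  rwa [bl_tr, bl_tr]

theorem gS_mu (A : Finset (EV (I ⊕ R))) (g : ∀ i, (F i)ˣ) :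
    Pool.Agent.H98R2.Nb.Inv (mu g) (gS (F := F) A) := by
  intro x y h
  rw [gS_adj] at h ⊢
  rwa [bl_mu, bl_mu]

theorem gS_le (A B : Finset (EV (I ⊕ R))) : gS (F := F) A ≤ gS B ↔ A ⊆ B := by
  constructor
  · intro hle e he
    obtain ⟨e, hd⟩ := e
    induction e using Sym2.ind with
    | _ a b =>
      have hA : (gS (F := F) A).Adj (rep a) (rep b) := by
        rw [gS_adj, bl_rep, bl_rep, Pool.Agent.TH410.KV.toG_adj]
        exact ⟨hd, he⟩
      have hB := hle hA
      rw [gS_adj, bl_rep, bl_rep, Pool.Agent.TH410.KV.toG_adj] at hB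
      obtain ⟨_, h⟩ := hB
      exact h
  · intro h x y hxy
    rw [gS_adj] at hxy ⊢
    exact toG_mono15 h hxy

/-- an edge inside a field block of an invariant graph gives all edges of the block -/
theorem clique_of_edge (g : ∀ i, (F i)ˣ) (hgen : ∀ i (x : (F i)ˣ), ∃ u : ℕ, x = g i ^ u)
    (G : SimpleGraph (VS F R)) (ha : ∀ t : ∀ i, F i, Pool.Agent.H98R2.Nb.Inv (tr t) G)
    (hc : Pool.Agent.H98R2.Nb.Inv (mu g) G) (i : I) (x y : F i)
    (hxy : G.Adj (Sum.inl ⟨i, x⟩) (Sum.inl ⟨i, y⟩)) (a b : F i) (hab : a ≠ b) :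
    G.Adj (Sum.inl ⟨i, a⟩) (Sum.inl ⟨i, b⟩) := by
  have h1 : ∀ (t x y : F i), G.Adj (Sum.inl ⟨i, x⟩) (Sum.inl ⟨i, y⟩) →
      G.Adj (Sum.inl ⟨i, x + t⟩) (Sum.inl ⟨i, y + t⟩) := by
    intro t x y h
    have h2 := ha (Function.update (fun _ => 0) i t) _ _ h
    rw [tr_inl, tr_inl, Function.update_self] at h2
    exact h2
  have h2 : ∀ (u : ℕ) (x y : F i), G.Adj (Sum.inl ⟨i, x⟩) (Sum.inl ⟨i, y⟩) →
      G.Adj (Sum.inl ⟨i, ((g i ^ u : (F i)ˣ) : F i) * x⟩)
        (Sum.inl ⟨i, ((g i ^ u : (F i)ˣ) : F i) * y⟩) := by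
    intro u x y h
    induction u with
    | zero => simpa using h
    | succ u ih =>
      have h3 := hc _ _ ih
      rw [mu_inl, mu_inl] at h3
      rw [pow_succ', Units.val_mul, mul_assoc, mul_assoc]
      exact h3
  have hne : x ≠ y := by
    rintro rfl
    exact G.irrefl hxy
  have hsub : x - y ≠ 0 := sub_ne_zero.2 hne
  have hab' : a - b ≠ 0 := sub_ne_zero.2 hab
  obtain ⟨u, hu⟩ := hgen i (Units.mk0 ((a - b) / (x - y)) (div_ne_zero hab' hsub))
  have hu' : ((g i ^ u : (F i)ˣ) : F i) = (a - b) / (x - y) := by rw [← hu]; rfl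
  have h3 := h1 (b - ((g i ^ u : (F i)ˣ) : F i) * y) _ _ (h2 u x y hxy)
  have e1 : ((g i ^ u : (F i)ˣ) : F i) * x + (b - ((g i ^ u : (F i)ˣ) : F i) * y) = a := by
    have : ((g i ^ u : (F i)ˣ) : F i) * (x - y) = a - b := by
      rw [hu', div_mul_cancel₀ _ hsub]
    linear_combination this
  have e2 : ((g i ^ u : (F i)ˣ) : F i) * y + (b - ((g i ^ u : (F i)ˣ) : F i) * y) = b := by
    ring
  rw [e1, e2] at h3
  exact h3

/-- a vertex can be moved inside its block -/
theorem mv (G : SimpleGraph (VS F R)) (ha : ∀ t : ∀ i, F i, Pool.Agent.H98R2.Nb.Inv (tr t) G)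
    (x y x' : VS F R) (hb : bl x' = bl x) (hxy : bl x ≠ bl y) (h : G.Adj x y) :
    G.Adj x' y := by
  rcases x with ⟨i, a⟩ | r <;> rcases x' with ⟨i', a'⟩ | r'
  · simp only [bl, Sum.map_inl, Sum.inl.injEq] at hb
    subst hb
    have h1 := ha (Function.update 0 i' (a' - a)) _ _ h
    rw [tr_inl, Function.update_self, add_sub_cancel] at h1
    rcases y with ⟨i2, b⟩ | z
    · have hne : i2 ≠ i' := fun h2 => hxy (by simp [bl, h2])
      rw [tr_inl, Function.update_of_ne hne] at h1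
      simpa using h1
    · rwa [tr_inr] at h1
  · simp [bl] at hb
  · simp [bl] at hb
  · simp only [bl, Sum.map_inr, id, Sum.inr.injEq] at hb
    subst hb
    exact h

theorem full (G : SimpleGraph (VS F R)) (ha : ∀ t : ∀ i, F i, Pool.Agent.H98R2.Nb.Inv (tr t) G)
    (x y x' y' : VS F R) (hx : bl x' = bl x) (hy : bl y' = bl y) (hxy : bl x ≠ bl y)
    (h : G.Adj x y) : G.Adj x' y' := by
  have h1 := mv G ha x y x' hx hxy h
  have h2 := mv G ha y x' y' hy (by rw [hx]; exact hxy.symm) h1.symm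
  exact h2.symm

variable [Fintype I] [Fintype R]

theorem complete (G : SimpleGraph (VS F R))
    (ha : ∀ t : ∀ i, F i, Pool.Agent.H98R2.Nb.Inv (tr t) G)
    (hint : ∀ (i : I) (x y : F i), ¬ G.Adj (Sum.inl ⟨i, x⟩) (Sum.inl ⟨i, y⟩)) :
    ∃ A : Finset (EV (I ⊕ R)), gS A = G := by
  classical
  refine ⟨univ.filter (fun e => ∃ x y : VS F R, s(bl x, bl y) = e.1 ∧ G.Adj x y), ?_⟩
  ext x y
  rw [gS_adj, Pool.Agent.TH410.KV.toG_adj]
  constructor
  · rintro ⟨hd, h⟩
    rw [mem_filter] at h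
    obtain ⟨_, x', y', hxy', hadj⟩ := h
    have hne : bl x ≠ bl y := fun h => hd (Sym2.mk_isDiag_iff.2 h)
    simp only [Sym2.eq_iff] at hxy'
    rcases hxy' with ⟨h1, h2⟩ | ⟨h1, h2⟩
    · exact full G ha x' y' x y h1.symm h2.symm (by rw [h1, h2]; exact hne) hadj
    · exact full G ha y' x' x y h2.symm h1.symm (by rw [h1, h2]; exact hne) hadj.symm
  · intro h
    have hne : bl x ≠ bl y := by
      intro hb
      rcases x with ⟨i, a⟩ | r <;> rcases y with ⟨i', a'⟩ | r'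
      · simp only [bl, Sum.map_inl, Sum.inl.injEq] at hb
        subst hb
        exact hint _ _ _ h
      · simp [bl] at hb
      · simp [bl] at hb
      · simp only [bl, Sum.map_inr, id, Sum.inr.injEq] at hb
        subst hb
        exact G.irrefl h
    refine ⟨fun hd => hne (Sym2.mk_isDiag_iff.1 hd), ?_⟩
    rw [mem_filter]
    exact ⟨mem_univ _, x, y, rfl, h⟩

variable [∀ i, Fintype (F i)] [∀ i, DecidableEq (F i)]

open Classical in
/-- **The criterion**: if a property of graphs on `VS F R` is not evasive, then the signed number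
of the graphs on the blocks whose blow-up does not have the property is divisible by `q`. -/
theorem crit (p q : ℕ) [Fact p.Prime] [Fact q.Prime] [∀ i, CharP (F i) p]
    (Q : SimpleGraph (VS F R) → Prop) (hmono : ∀ G G', G ≤ G' → Q G → Q G')
    (hiso : ∀ (s : Equiv.Perm (VS F R)) G, Q (G.map s.toEmbedding) → Q G)
    (hbot : ¬ Q ⊥)
    (hcl : ∀ (i : I) (G : SimpleGraph (VS F R)),
      (∀ x y : F i, x ≠ y → G.Adj (Sum.inl ⟨i, x⟩) (Sum.inl ⟨i, y⟩)) → Q G)
    (hne : NE (univ : Finset (EV (VS F R))) (fun S => ¬ Q (toG S))) :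
    (q : ℤ) ∣ ∑ A : Finset (EV (I ⊕ R)),
      if ¬ Q (gS (F := F) A) then (-1 : ℤ) ^ A.card else 0 := by
  have : ∀ i, Finite (F i)ˣ := fun i => inferInstance
  choose g hg using fun i => IsCyclic.exists_generator (α := (F i)ˣ)
  have hgen : ∀ i (x : (F i)ˣ), ∃ u : ℕ, x = g i ^ u := by
    intro i x
    obtain ⟨u, hu⟩ := (mem_powers_iff_mem_zpowers).2 (hg i x)
    exact ⟨u, hu.symm⟩
  have hcrit := Pool.Agent.H98R2.Nb.GC.graph_criterion (V := VS F R) (fun G => ¬ Q G)
    (fun G G' hGG' hP h => hP (hmono _ _ hGG' h))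
    (fun s G hP h => hP (hiso s G h))
    hbot
    (by convert hne) p q 0 (fun t : (∀ i, F i) => tr t) (mu g) 1
    (fun s t => tr_comm s t) (fun t => tr_pow p t)
    (one_pow _)
    (fun t => by rw [mul_one, one_mul])
    (by
      intro G hG t
      rw [mu_tr]
      exact hG _)
    (by
      intro G _ hG
      rw [inv_one, one_mul, mul_one]
      exact hG)
    (fun A : Finset (EV (I ⊕ R)) => gS A)
    (fun A B => gS_le A B) (fun A t => gS_tr A t) (fun A => gS_mu A g)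
    (fun A => fun x y h => h)
    (by
      intro G hP hG1 hG2 _
      exact complete G hG1 (fun i x y hxy => hP (hcl i G (fun a b hab =>
        clique_of_edge g hgen G hG1 hG2 i x y hxy a b hab))))
  convert hcrit using 3

end VS

end Pool.Agent.W5h82.Ev
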